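import Pool.Agent.helper62.EN.SpecA

set_option autoImplicit false

open scoped Topology
open MeasureTheory Filter Set

namespace Pool.Agent.EN

theorem HLG_ineq (q N : ℝ) (hq : 0 ≤ q) (hN : 0 < N) : Real.negMulLog q ≤ q * Real.log N + (1 / N - q) := by
  rcases hq.eq_or_lt with h | h
  · rw [← h, Real.negMulLog_zero]
    have : 0 < 1 / N := by positivity
    linarith
  · have h1 := Real.log_le_sub_one_of_pos (show 0 < 1 / (q * N) by positivity)
    have h2 : Real.log (1 / (q * N)) = -(Real.log q + Real.log N) := by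
      rw [one_div, Real.log_inv, Real.log_mul h.ne' hN.ne']
    rw [h2] at h1
    have h3 := mul_le_mul_of_nonneg_left h1 hq
    have h4 : q * (1 / (q * N) - 1) = 1 / N - q := by
      field_simp
    rw [h4] at h3
    unfold Real.negMulLog
    linarith

theorem HLG_meas {X : Type} [MeasurableSpace X] (T : X → X) {p : ℕ} (P : X → Fin p) (n : ℕ) (hT : Measurable T)
    (hP : Measurable P) : Measurable (fun x (i : Fin n) => P (T^[i] x)) :=
  measurable_pi_lambda _ fun i => hP.comp (hT.iterate i)

theorem HLG_proof : HLG_stmt := by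
  intro X _ μ T p P n hμ hT hP
  have h1 : ∀ w : Fin n → Fin p, {x | ∀ i : Fin n, P (T^[i] x) = w i} = (fun x (i : Fin n) => P (T^[i] x)) ⁻¹' {w} := by
    intro w
    ext x
    simp [funext_iff]
  have h2 : ∑ w : Fin n → Fin p, μ.real {x | ∀ i : Fin n, P (T^[i] x) = w i} = 1 := by
    have h3 := sum_measureReal_preimage_singleton (μ := μ) (f := fun x (i : Fin n) => P (T^[i] x)) Finset.univ
      (fun w _ => HLG_meas T P n hT hP (measurableSet_singleton w)) 
    simp only [h1]
    rw [h3]
    simp
  have hp : 0 < p := by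
    have : Nonempty X := nonempty_of_isProbabilityMeasure μ
    exact (Nat.zero_le _).trans_lt (P (Classical.arbitrary X)).isLt
  unfold Hn
  refine ⟨Finset.sum_nonneg fun w _ => Real.negMulLog_nonneg measureReal_nonneg measureReal_le_one, ?_⟩
  have hN : (0 : ℝ) < (p : ℝ) ^ n := by positivity
  have h4 : ∑ w : Fin n → Fin p, Real.negMulLog (μ.real {x | ∀ i : Fin n, P (T^[i] x) = w i}) ≤
      ∑ w : Fin n → Fin p, (μ.real {x | ∀ i : Fin n, P (T^[i] x) = w i} * Real.log ((p : ℝ) ^ n) +
        (1 / (p : ℝ) ^ n - μ.real {x | ∀ i : Fin n, P (T^[i] x) = w i})) :=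
    Finset.sum_le_sum fun w _ => HLG_ineq _ _ measureReal_nonneg hN
  rw [Finset.sum_add_distrib, Finset.sum_sub_distrib, ← Finset.sum_mul, h2] at h4
  have h5 : ∑ w : Fin n → Fin p, (1 / (p : ℝ) ^ n) = 1 := by
    rw [Finset.sum_const, Finset.card_univ, Fintype.card_fun, Fintype.card_fin, Fintype.card_fin, nsmul_eq_mul]
    push_cast
    field_simp
  rw [h5, Real.log_pow] at h4
  linarith

end Pool.Agent.EN
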