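import Pool.Agent.helper62.EN.SpecX

set_option autoImplicit false

open scoped MatrixGroups ContDiff Topology UpperHalfPlane ComplexConjugate
open UpperHalfPlane MeasureTheory Filter Set

namespace Pool.Agent.EN

theorem XTM_pd (Γ : Subgroup SL(2, ℝ)) (hΓ : QU.SurfaceGroup Γ) : ProperlyDiscontinuousSMul Γ ℍ := by
  refine ⟨fun {K L} hK hL => ?_⟩
  refine (hΓ.discrete (K ∪ L) (hK.union hL)).subset fun γ hγ => ?_
  obtain ⟨w, ⟨z, hz, e⟩, hw⟩ := hγ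
  refine ⟨z, Or.inl hz, Or.inr ?_⟩
  have e' : γ • z = w := e
  rw [e']
  exact hw

theorem XTM_proof (h1 : XFL_stmt) : XTM_stmt := by
  intro Γ hΓ
  obtain ⟨-, -, -, -, -, hc, ho, hs, -, -, -, heq⟩ := h1 Γ
  have : ProperlyDiscontinuousSMul Γ ℍ := XTM_pd Γ hΓ
  refine ⟨?_, ?_, ?_⟩
  · obtain ⟨K, hK, hK'⟩ := hΓ.cocompact
    refine ⟨?_⟩
    have h2 : (Set.univ : Set (MG Γ)) = mkM Γ '' K := by
      refine (Set.eq_univ_of_forall fun m => ?_).symm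
      obtain ⟨z, rfl⟩ := hs m
      obtain ⟨γ, hγ⟩ := hK' z
      exact ⟨γ • z, hγ, ((heq z (γ • z)).2 ⟨γ, rfl⟩).symm⟩
    rw [h2]
    exact hK.image hc
  · exact inferInstanceAs (T2Space (Quotient (MulAction.orbitRel Γ ℍ)))
  · exact ContinuousConstSMul.secondCountableTopology (Γ := Γ) (T := ℍ)

end Pool.Agent.EN
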