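import Pool.Agent.helper80.EN.Spec

/-! Row GIS of the project EN (MP_43ab4e_al): `Good` passes to groups with an injective homomorphism
into a good group, `P` is invariant under isomorphism. -/

set_option autoImplicit false

namespace Pool.Agent.helper80.EN

universe u

private theorem P_equiv (hT : TRF_stmt.{u}) (K L : Type u) [Group K] [Group L] (e : K ≃* L)
    (hK : P K) : P L := by
  intro α hα
  let β : MulAut K := e.trans (α.trans e.symm)
  have hβ : ∀ b, β b = e.symm (α (e b)) := fun b => rfl
  have hd : ∀ b, e (del β b) = del α (e b) := by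
    intro b
    simp only [del, hβ, map_mul, map_inv, MulEquiv.apply_symm_apply]
  have hit : ∀ (n : ℕ) (b : K), e ((del β)^[n] b) = (del α)^[n] (e b) := by
    intro n
    induction n with
    | zero => intro b; rfl
    | succ n ih =>
      intro b
      rw [Function.iterate_succ_apply, Function.iterate_succ_apply, ih, hd]
  have hEβ : EngelAut β := by
    intro b
    obtain ⟨n, hn⟩ := hα (e b)
    refine ⟨n, ?_⟩
    apply e.injective
    rw [hit, hn, map_one]
  have h1 : LocNilp (Bra β) := hK β hEβ
  have h2 : LocNilp ((Bra β).map e.toMonoidHom) := (hT K).2.1 L e.toMonoidHom (Bra β) h1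
  have h3 : (Bra β).map e.toMonoidHom = Bra α := by
    unfold Bra
    rw [MonoidHom.map_closure]
    congr 1
    ext x
    constructor
    · rintro ⟨y, ⟨b, rfl⟩, rfl⟩
      exact ⟨e b, (hd b).symm⟩
    · rintro ⟨b, rfl⟩
      refine ⟨del β (e.symm b), ⟨e.symm b, rfl⟩, ?_⟩
      have := hd (e.symm b)
      rw [MulEquiv.apply_symm_apply] at this
      exact this
  rw [h3] at h2
  exact h2

theorem GIS (hT : TRF_stmt.{u}) : GIS_stmt.{u} := by
  refine ⟨?_, fun K L _ _ e hK => P_equiv hT K L e hK⟩
  intro K L _ _ f hf hL B hB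
  have h1 : (B.map f).FG := by
    classical
    obtain ⟨S, hS⟩ := hB
    refine ⟨S.image f, ?_⟩
    rw [Finset.coe_image, ← MonoidHom.map_closure, hS]
  have h2 : P (B.map f) := hL (B.map f) h1
  exact P_equiv hT _ _ (B.equivMapOfInjective f hf).symm h2

end Pool.Agent.helper80.EN
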